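import Pool.Agent.H698NC.V2
import Pool.Agent.H698NC.X1

set_option autoImplicit false

/-! Nested couplings of random regular graphs of different degrees, an even number of vertices. -/

namespace Pool.Agent.Results.MP_d20c4f_pr.NestedSparse

/-- `P` is the uniform distribution on the (nonempty) set of `d`-regular graphs on `Fin n`. -/
def IsUniformRegular (n d : ℕ) (P : PMF (SimpleGraph (Fin n))) : Prop :=
  (∀ G H : SimpleGraph (Fin n), (∀ v, (G.neighborSet v).ncard = d) → (∀ v, (H.neighborSet v).ncard = d) → P G = P H) ∧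
    (∀ G : SimpleGraph (Fin n), ¬ (∀ v, (G.neighborSet v).ncard = d) → P G = 0)

open Pool.Agent.H698NC in
theorem uniform_isUniform {n d : ℕ} (h : (RG n d).Nonempty) (P : PMF (SimpleGraph (Fin n)))
    (hP : P = PMF.uniformOfFinset (RG n d) h) : IsUniformRegular n d P := by
  subst hP
  refine ⟨fun G H hG hH => ?_, fun G hG => ?_⟩
  · have h1 : G ∈ RG n d := by
      simp only [RG, Finset.mem_filter, Finset.mem_univ, true_and]; exact hG
    have h2 : H ∈ RG n d := by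
      simp only [RG, Finset.mem_filter, Finset.mem_univ, true_and]; exact hH
    rw [PMF.uniformOfFinset_apply_of_mem _ h1, PMF.uniformOfFinset_apply_of_mem _ h2]
  · apply PMF.uniformOfFinset_apply_of_notMem
    intro h1
    simp only [RG, Finset.mem_filter, Finset.mem_univ, true_and] at h1
    exact hG h1

/-- the case of small degrees, in terms of `RG` -/
theorem core : ∃ c : ℝ, 0 < c ∧ ∀ ε : ℝ, 0 < ε → ∃ (D : ℕ) (δ : ℝ), 0 < δ ∧ ∀ n d₁ d₂ : ℕ, Even n →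
    D ≤ d₁ → d₁ ≤ d₂ → (d₂ : ℝ) ≤ c * n → (d₂ : ℝ) - d₁ ≤ δ * √((n : ℝ) * d₂) →
      ∃ (g1 : (Pool.Agent.H698NC.RG n d₁).Nonempty) (g2 : (Pool.Agent.H698NC.RG n d₂).Nonempty)
        (μ : PMF (SimpleGraph (Fin n) × SimpleGraph (Fin n))),
        μ.map Prod.fst = PMF.uniformOfFinset (Pool.Agent.H698NC.RG n d₁) g1 ∧
          μ.map Prod.snd = PMF.uniformOfFinset (Pool.Agent.H698NC.RG n d₂) g2 ∧
          ENNReal.ofReal (1 - ε) ≤ μ.toOuterMeasure {p | p.1 ≤ p.2} := by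
  obtain ⟨C, hC, h⟩ := Pool.Agent.H698NC.coupling_chainp
  have hC0 : 0 < C := by linarith
  refine ⟨1 / C, by positivity, fun ε hε => ?_⟩
  obtain ⟨D, hD⟩ := exists_nat_gt ((2 * C / ε) ^ 2 + 3)
  refine ⟨D, ε / (2 * C), by positivity, fun n d₁ d₂ hn h1 h2 h3 h4 => ?_⟩
  have hDr : (2 * C / ε) ^ 2 + 3 < (d₁ : ℝ) := lt_of_lt_of_le hD (by exact_mod_cast h1)
  have hd3 : 3 ≤ d₁ := by
    have : (3 : ℝ) < d₁ := by nlinarith [sq_nonneg (2 * C / ε)]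
    exact_mod_cast this.le
  have hdn : C * (d₂ : ℝ) ≤ n := by
    calc C * (d₂ : ℝ) ≤ C * (1 / C * n) := by gcongr
      _ = n := by field_simp
  obtain ⟨g1, g2, μ, hm1, hm2, hm3⟩ := h n d₁ d₂ hn hd3 h2 hdn
  refine ⟨g1, g2, μ, hm1, hm2, le_trans (ENNReal.ofReal_le_ofReal ?_) hm3⟩
  have hs : 2 * C / ε < √(d₁ : ℝ) := by
    apply Real.lt_sqrt_of_sq_lt
    linarith
  have hsp : 0 < √(d₁ : ℝ) := lt_trans (by positivity) hs
  have e1 : C * (1 / √(d₁ : ℝ)) ≤ ε / 2 := by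
    rw [mul_one_div, div_le_iff₀ hsp]
    have : 2 * C < √(d₁ : ℝ) * ε := by
      rwa [div_lt_iff₀ hε] at hs
    linarith
  have hd20 : (0 : ℝ) < d₂ := by exact_mod_cast (by omega : 0 < d₂)
  have hn0 : 0 < (n : ℝ) := by nlinarith
  have hsn : 0 < √((n : ℝ) * d₂) := Real.sqrt_pos.2 (mul_pos hn0 hd20)
  have e2 : C * (((d₂ : ℝ) - d₁) / √((n : ℝ) * d₂)) ≤ ε / 2 := by
    have : ((d₂ : ℝ) - d₁) / √((n : ℝ) * d₂) ≤ ε / (2 * C) := by
      rw [div_le_iff₀ hsn]; exact h4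
    calc C * (((d₂ : ℝ) - d₁) / √((n : ℝ) * d₂)) ≤ C * (ε / (2 * C)) := by gcongr
      _ = ε / 2 := by field_simp
  have : C * (1 / √(d₁ : ℝ) + ((d₂ : ℝ) - d₁) / √((n : ℝ) * d₂)) =
      C * (1 / √(d₁ : ℝ)) + C * (((d₂ : ℝ) - d₁) / √((n : ℝ) * d₂)) := by ring
  linarith

/-- There is `c > 0` such that for every `ε > 0` there are `D` and `δ > 0` with the following property. Let `n` be even and
`d₁ ≤ d₂ < n`, and let either `D ≤ d₁`, `d₂ ≤ c n` and `d₂ - d₁ ≤ δ √(n d₂)`, or the same for the degrees of the complements: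
`D ≤ n - 1 - d₂`, `n - 1 - d₁ ≤ c n` and `d₂ - d₁ ≤ δ √(n (n - 1 - d₁))`. Then there is a coupling of the uniform random
`d₁`-regular graph and the uniform random `d₂`-regular graph on `n` vertices such that the first is contained in the second with
probability at least `1 - ε`. -/
theorem result : ∃ c : ℝ, 0 < c ∧ ∀ ε : ℝ, 0 < ε → ∃ (D : ℕ) (δ : ℝ), 0 < δ ∧ ∀ n d₁ d₂ : ℕ, Even n →
    d₁ ≤ d₂ → d₂ < n →
    ((D ≤ d₁ ∧ (d₂ : ℝ) ≤ c * n ∧ (d₂ : ℝ) - d₁ ≤ δ * √((n : ℝ) * d₂)) ∨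
      (D + d₂ < n ∧ (n : ℝ) - 1 - d₁ ≤ c * n ∧ (d₂ : ℝ) - d₁ ≤ δ * √((n : ℝ) * (n - 1 - d₁)))) →
      ∃ μ : PMF (SimpleGraph (Fin n) × SimpleGraph (Fin n)),
        IsUniformRegular n d₁ (μ.map Prod.fst) ∧ IsUniformRegular n d₂ (μ.map Prod.snd) ∧
          ENNReal.ofReal (1 - ε) ≤ μ.toOuterMeasure {p | p.1 ≤ p.2} := by
  obtain ⟨c, hc, h⟩ := core
  refine ⟨c, hc, fun ε hε => ?_⟩
  obtain ⟨D, δ, hδ, h⟩ := h ε hε
  refine ⟨D, δ, hδ, fun n d₁ d₂ hn h12 h2n hor => ?_⟩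
  rcases hor with ⟨a1, a2, a3⟩ | ⟨a1, a2, a3⟩
  · obtain ⟨g1, g2, μ, m1, m2, m3⟩ := h n d₁ d₂ hn a1 h12 a2 a3
    exact ⟨μ, uniform_isUniform g1 _ m1, uniform_isUniform g2 _ m2, m3⟩
  · have e1 : ((n - 1 - d₁ : ℕ) : ℝ) = (n : ℝ) - 1 - d₁ := by
      rw [Nat.cast_sub (by omega), Nat.cast_sub (by omega)]
      simp
    have e2 : ((n - 1 - d₂ : ℕ) : ℝ) = (n : ℝ) - 1 - d₂ := by
      rw [Nat.cast_sub (by omega), Nat.cast_sub (by omega)]
      simp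
    obtain ⟨g1, g2, μ, m1, m2, m3⟩ := h n (n - 1 - d₂) (n - 1 - d₁) hn (by omega) (by omega) (by rw [e1]; exact a2)
      (by rw [e1, e2]; linarith)
    obtain ⟨g3, g4, ν, n1, n2, n3⟩ := Pool.Agent.H698NC.coupling_compl (by omega) (by omega) (by omega) _ g1 g2 μ m1 m2 m3
    have f1 : n - 1 - (n - 1 - d₁) = d₁ := by omega
    have f2 : n - 1 - (n - 1 - d₂) = d₂ := by omega
    have n1' := uniform_isUniform g3 _ n1
    have n2' := uniform_isUniform g4 _ n2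
    rw [f1] at n1'
    rw [f2] at n2'
    exact ⟨ν, n1', n2', n3⟩

end Pool.Agent.Results.MP_d20c4f_pr.NestedSparse
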